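import Mathlib

namespace Pool.Agent.Results.MP_e1d516_co.Twelve

open Finset

/-- The involution (0 1)(2 3)...(10 11). -/
def sigma : Equiv.Perm (Fin 12) :=
  Equiv.swap 0 1 * Equiv.swap 2 3 * Equiv.swap 4 5 * Equiv.swap 6 7 * Equiv.swap 8 9 *
    Equiv.swap 10 11

def H : Matrix (Fin 6) (Fin 12) (ZMod 2) :=
  !![0, 0, 0, 1, 0, 0, 1, 0, 0, 0, 1, 0;
    0, 0, 1, 0, 0, 0, 0, 1, 0, 0, 0, 1;
    1, 1, 0, 1, 1, 0, 0, 0, 0, 0, 0, 0;
    1, 1, 1, 0, 0, 1, 0, 0, 0, 0, 0, 0;
    0, 1, 1, 0, 0, 0, 0, 0, 0, 1, 1, 0;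
    0, 1, 0, 0, 1, 0, 0, 0, 1, 0, 0, 1]

def R3 (a b c : Fin 12) : Prop := (a ≠ b ∧ a ≠ c ∧ b ≠ c) ∧ ∀ k, H k a + H k b + H k c = 0

def R4 (a b c d : Fin 12) : Prop :=
  (a ≠ b ∧ a ≠ c ∧ b ≠ c ∧ a ≠ d ∧ b ≠ d ∧ c ≠ d) ∧ ∀ k, H k a + H k b + H k c + H k d = 0

instance (a b c : Fin 12) : Decidable (R3 a b c) := by unfold R3; infer_instance

instance (a b c d : Fin 12) : Decidable (R4 a b c d) := by unfold R4; infer_instance

def Pres (β : Equiv.Perm (Fin 12)) : Prop :=
  ∀ c : Fin 12 → ZMod 2, H.mulVec c = 0 → H.mulVec (c ∘ β.symm) = 0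

lemma single_comp (β : Equiv.Perm (Fin 12)) (a : Fin 12) :
    (Pi.single a 1 : Fin 12 → ZMod 2) ∘ β.symm = Pi.single (β a) 1 := by
  funext i
  simp only [Function.comp, Pi.single_apply, Equiv.symm_apply_eq]

lemma pres3 (β : Equiv.Perm (Fin 12)) (h : Pres β) (a b c : Fin 12) (r : R3 a b c) :
    R3 (β a) (β b) (β c) := by
  refine ⟨by simpa using r.1, fun k => ?_⟩
  have := h (Pi.single a 1 + Pi.single b 1 + Pi.single c 1) (by
    funext k; simpa [Matrix.mulVec_add] using r.2 k)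
  rw [Pi.add_comp, Pi.add_comp, single_comp, single_comp, single_comp] at this
  simpa [Matrix.mulVec_add] using congrFun this k

lemma pres4 (β : Equiv.Perm (Fin 12)) (h : Pres β) (a b c d : Fin 12) (r : R4 a b c d) :
    R4 (β a) (β b) (β c) (β d) := by
  refine ⟨by simpa using r.1, fun k => ?_⟩
  have := h (Pi.single a 1 + Pi.single b 1 + Pi.single c 1 + Pi.single d 1) (by
    funext k; simpa [Matrix.mulVec_add] using r.2 k)
  rw [Pi.add_comp, Pi.add_comp, Pi.add_comp, single_comp, single_comp, single_comp,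
    single_comp] at this
  simpa [Matrix.mulVec_add] using congrFun this k

def d3 (a : Fin 12) : ℕ := ∑ b, ∑ c, if R3 a b c then 1 else 0

def d4 (a : Fin 12) : ℕ := ∑ b, ∑ c, ∑ d, if R4 a b c d then 1 else 0

lemma d3_le (β : Equiv.Perm (Fin 12)) (h : Pres β) (a : Fin 12) : d3 a ≤ d3 (β a) := by
  unfold d3
  rw [← Equiv.sum_comp β fun b => ∑ c, if R3 (β a) b c then 1 else 0]
  refine sum_le_sum fun b _ => ?_
  rw [← Equiv.sum_comp β fun c => if R3 (β a) (β b) c then 1 else 0]
  refine sum_le_sum fun c _ => ?_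
  by_cases r : R3 a b c
  · simp [r, pres3 β h a b c r]
  · simp [r]

lemma d4_le (β : Equiv.Perm (Fin 12)) (h : Pres β) (a : Fin 12) : d4 a ≤ d4 (β a) := by
  unfold d4
  rw [← Equiv.sum_comp β fun b => ∑ c, ∑ d, if R4 (β a) b c d then 1 else 0]
  refine sum_le_sum fun b _ => ?_
  rw [← Equiv.sum_comp β fun c => ∑ d, if R4 (β a) (β b) c d then 1 else 0]
  refine sum_le_sum fun c _ => ?_
  rw [← Equiv.sum_comp β fun d => if R4 (β a) (β b) (β c) d then 1 else 0]
  refine sum_le_sum fun d _ => ?_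
  by_cases r : R4 a b c d
  · simp [r, pres4 β h a b c d r]
  · simp [r]

lemma d3_eq : ∀ a, d3 a = ![0, 0, 0, 0, 0, 0, 2, 2, 2, 2, 2, 2] a := by decide +kernel

lemma d4_eq : ∀ a, d4 a = ![18, 18, 12, 12, 24, 24, 12, 12, 18, 18, 0, 0] a := by decide +kernel

def flip (s : Fin 6 → Bool) (i : Fin 12) : Fin 12 :=
  if s ⟨i / 2, by omega⟩ then sigma i else i

def Good (f : Fin 12 → Fin 12) : Prop :=
  R4 (f 2) (f 5) (f 7) (f 9) ∧ R4 (f 0) (f 3) (f 5) (f 6) ∧ R4 (f 0) (f 4) (f 5) (f 8) ∧ R4 (f 3) (f 4) (f 6) (f 8) ∧ R4 (f 1) (f 4) (f 5) (f 9) ∧ R4 (f 1) (f 2) (f 4) (f 7) ∧ R4 (f 0) (f 1) (f 8) (f 9) ∧ R3 (f 7) (f 8) (f 11) ∧ R3 (f 6) (f 9) (f 10)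

instance (f : Fin 12 → Fin 12) : Decidable (Good f) := by unfold Good; infer_instance

lemma flip_ok' : ∀ s0 s1 s2 s3 s4 s5 : Bool, Good (flip ![s0, s1, s2, s3, s4, s5]) →
    (∀ i, flip ![s0, s1, s2, s3, s4, s5] i = i) ∨
      ∀ i, flip ![s0, s1, s2, s3, s4, s5] i = sigma i := by decide +kernel

lemma flip_ok (s : Fin 6 → Bool) : Good (flip s) → (∀ i, flip s i = i) ∨ ∀ i, flip s i = sigma i := by
  have : s = ![s 0, s 1, s 2, s 3, s 4, s 5] := by
    funext i; fin_cases i <;> rfl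
  rw [this]
  exact flip_ok' _ _ _ _ _ _

lemma sig_ok (c : Fin 12 → ZMod 2) (h : H.mulVec c = 0) : H.mulVec (c ∘ sigma.symm) = 0 := by
  have e : ∀ i, sigma.symm i = ![1, 0, 3, 2, 5, 4, 7, 6, 9, 8, 11, 10] i := by decide +kernel
  have h0 := congrFun h 0
  have h1 := congrFun h 1
  have h2 := congrFun h 2
  have h3 := congrFun h 3
  have h4 := congrFun h 4
  have h5 := congrFun h 5
  clear h
  funext i
  simp [H, Matrix.mulVec, dotProduct, Fin.sum_univ_succ] at h0 h1 h2 h3 h4 h5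
  fin_cases i <;> simp [H, Matrix.mulVec, dotProduct, Fin.sum_univ_succ, e]
  all_goals
    have two : (2 : ZMod 2) = 0 := rfl
    first
      | linear_combination h0 | linear_combination h1 | linear_combination h2
      | linear_combination h3
      | linear_combination h2 + h5 - (c 1 + c 4) * two
      | linear_combination h3 + h4 - (c 1 + c 2) * two

theorem result : ∃ C : Submodule (ZMod 2) (Fin 12 → ZMod 2), ∀ β : Equiv.Perm (Fin 12),
    (fun c : Fin 12 → ZMod 2 => c ∘ β.symm) '' (C : Set (Fin 12 → ZMod 2)) = C ↔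
      β = 1 ∨ β = sigma := by
  refine ⟨LinearMap.ker (Matrix.mulVecLin H), fun β => ⟨fun h => ?_, ?_⟩⟩
  · have h1 : ∀ c : Fin 12 → ZMod 2, H.mulVec c = 0 → H.mulVec (c ∘ β.symm) = 0 := by
      intro c hc
      have : c ∘ β.symm ∈ ((LinearMap.ker (Matrix.mulVecLin H) : Submodule _ _) : Set _) := by
        rw [← h]; exact ⟨c, hc, rfl⟩
      exact this
    have h2 : ∀ c : Fin 12 → ZMod 2, H.mulVec c = 0 → H.mulVec (c ∘ β.symm.symm) = 0 := by
      intro c hc
      have : c ∈ ((LinearMap.ker (Matrix.mulVecLin H) : Submodule _ _) : Set _) := hc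
      rw [← h] at this
      obtain ⟨c', hc', rfl⟩ := this
      have e : (c' ∘ β.symm) ∘ β.symm.symm = c' := by funext i; simp
      simp only
      rw [e]
      exact hc'
    have hd3 : ∀ i, d3 (β i) = d3 i := fun i =>
      le_antisymm (by simpa using d3_le β.symm h2 (β i)) (d3_le β h1 i)
    have hd4 : ∀ i, d4 (β i) = d4 i := fun i =>
      le_antisymm (by simpa using d4_le β.symm h2 (β i)) (d4_le β h1 i)
    have key : ∀ i j, d3 j = d3 i → d4 j = d4 i → j = i ∨ j = sigma i := by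
      simp only [d3_eq, d4_eq]
      decide +kernel
    have hb : ∀ i, β i = i ∨ β i = sigma i := fun i => key i _ (hd3 i) (hd4 i)
    have ss : ∀ i, sigma (sigma i) = i ∧ sigma i ≠ i := by decide +kernel
    have par : ∀ i : Fin 12, i = ⟨2 * (i / 2), by omega⟩ ∨ i = sigma ⟨2 * (i / 2), by omega⟩ := by
      decide +kernel
    set s : Fin 6 → Bool := fun j => decide (β ⟨2 * j, by omega⟩ ≠ ⟨2 * j, by omega⟩) with hs
    have hf : ∀ i, flip s i = β i := by
      intro i
      have aux : ∀ a : Fin 12, (β a ≠ a → β a = sigma a ∧ β (sigma a) = a) ∧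
          (β a = a → β (sigma a) = sigma a) := by
        intro a
        constructor
        · intro ha
          have h3 := (hb a).resolve_left ha
          refine ⟨h3, ?_⟩
          rcases hb (sigma a) with h4 | h4
          · exact absurd (β.injective (h4.trans h3.symm)) (ss a).2
          · rw [h4, (ss a).1]
        · intro ha
          rcases hb (sigma a) with h4 | h4
          · exact h4
          · rw [(ss a).1] at h4
            exact absurd (β.injective (h4.trans ha.symm)) (ss a).2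
      unfold flip
      simp only [hs, decide_eq_true_eq]
      set a : Fin 12 := ⟨2 * (i / 2), by omega⟩ with ha
      rcases par i with e | e
      · rw [← ha] at e
        split_ifs with h3
        · rw [e]; exact ((aux a).1 h3).1.symm
        · rw [e]; exact (not_not.1 h3).symm
      · rw [← ha] at e
        split_ifs with h3
        · rw [e, (ss a).1]; exact ((aux a).1 h3).2.symm
        · rw [e]; exact ((aux a).2 (not_not.1 h3)).symm
    have := flip_ok s (by
      have e : flip s = β := funext hf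
      rw [e]
      refine ⟨?_, ?_, ?_, ?_, ?_, ?_, ?_, ?_, ?_⟩ <;>
        first | exact pres4 β h1 _ _ _ _ (by decide +kernel) | exact pres3 β h1 _ _ _ (by decide +kernel))
    rcases this with h3 | h3
    · left; ext i; rw [← hf, h3]; rfl
    · right; ext i; rw [← hf, h3]
  · rintro (rfl | rfl)
    · ext c
      simp [Equiv.Perm.one_symm]
    · ext c
      constructor
      · rintro ⟨c', hc', rfl⟩
        exact sig_ok c' hc'
      · intro hc
        refine ⟨c ∘ sigma.symm, sig_ok c hc, ?_⟩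
        have e : ∀ i, sigma.symm (sigma.symm i) = i := by decide +kernel
        funext i
        simp [e]

end Pool.Agent.Results.MP_e1d516_co.Twelve
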